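import Mathlib

/-!
# Morphisms between varieties over an algebraically closed field, by `k`-points

`extk_core`: two `k`-morphisms which agree on `k`-points are equal.
`mor_core`: a map on `k`-points which is locally a morphism is a morphism.
-/

open CategoryTheory CategoryTheory.Limits AlgebraicGeometry

namespace Pool.Agent.Ell.H94

universe u

variable {k : Type u} [Field k] [IsAlgClosed k]

theorem extk_core {X Y : Scheme.{u}} (s : X ⟶ Spec (.of k)) (t : Y ⟶ Spec (.of k))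
    [LocallyOfFiniteType s] [IsReduced X] [IsSeparated t] [LocallyOfFiniteType t]
    (f g : X ⟶ Y) (hf : f ≫ t = s) (hg : g ≫ t = s)
    (H : ∀ p : Spec (.of k) ⟶ X, p ≫ s = 𝟙 _ → p ≫ f = p ≫ g) : f = g := by
  have : LocallyOfFiniteType (f ≫ t) := by rw [hf]; infer_instance
  refine ext_of_apply_eq t Set.univ isClosed_univ.isLocallyClosed dense_univ ?_ (by rw [hf, hg])
  intro x _ hx
  have h1 := H (pointOfClosedPoint s x hx) (pointOfClosedPoint_comp s x hx)
  have h2 : (pointOfClosedPoint s x hx ≫ f) (IsLocalRing.closedPoint k)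
      = (pointOfClosedPoint s x hx ≫ g) (IsLocalRing.closedPoint k) := by rw [h1]
  simpa [Scheme.Hom.comp_apply] using h2

/-- For a scheme locally of finite type over `k`, a family of open immersions which hits
every `k`-point is jointly surjective. -/
theorem cover_core {X : Scheme.{u}} (s : X ⟶ Spec (.of k)) [LocallyOfFiniteType s]
    {J : Type*} (U : J → Scheme.{u}) (i : ∀ j, U j ⟶ X) [∀ j, IsOpenImmersion (i j)]
    (h : ∀ p : Spec (.of k) ⟶ X, p ≫ s = 𝟙 _ →
      ∃ j, ∃ q : Spec (.of k) ⟶ U j, q ≫ i j = p) (x : X) :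
    ∃ j, ∃ y, (i j) y = x := by
  have : JacobsonSpace ↥X := LocallyOfFiniteType.jacobsonSpace s
  by_contra hx
  push Not at hx
  have hopen : IsOpen (⋃ j, Set.range (i j)) :=
    isOpen_iUnion fun j => (i j).isOpenEmbedding.isOpen_range
  have hne : ((⋃ j, Set.range (i j))ᶜ : Set X).Nonempty := by
    refine ⟨x, ?_⟩
    simp only [Set.mem_compl_iff, Set.mem_iUnion, Set.mem_range, not_exists]
    exact fun j y => hx j y
  obtain ⟨z, hz1, hz2⟩ := nonempty_inter_closedPoints hne hopen.isClosed_compl.isLocallyClosed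
  obtain ⟨j, q, hq⟩ := h (pointOfClosedPoint s z hz2) (pointOfClosedPoint_comp s z hz2)
  apply hz1
  simp only [Set.mem_iUnion, Set.mem_range]
  refine ⟨j, q (IsLocalRing.closedPoint k), ?_⟩
  rw [← Scheme.Hom.comp_apply, hq]
  simp

theorem mor_core {X Y : Scheme.{u}} (s : X ⟶ Spec (.of k)) (t : Y ⟶ Spec (.of k))
    [LocallyOfFiniteType s] [IsReduced X] [IsSeparated t] [LocallyOfFiniteType t]
    (φ : ∀ p : Spec (.of k) ⟶ X, p ≫ s = 𝟙 _ → (Spec (.of k) ⟶ Y))
    (h : ∀ (p : Spec (.of k) ⟶ X) (_ : p ≫ s = 𝟙 _),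
      ∃ (U : Scheme.{u}) (i : U ⟶ X) (_ : IsOpenImmersion i) (g : U ⟶ Y)
        (q : Spec (.of k) ⟶ U), q ≫ i = p ∧ g ≫ t = i ≫ s ∧
        ∀ (r : Spec (.of k) ⟶ U) (hr : (r ≫ i) ≫ s = 𝟙 _), r ≫ g = φ (r ≫ i) hr) :
    ∃ f : X ⟶ Y, f ≫ t = s ∧ ∀ (p : Spec (.of k) ⟶ X) (hp : p ≫ s = 𝟙 _), p ≫ f = φ p hp := by
  let J := {p : Spec (.of k) ⟶ X // p ≫ s = 𝟙 _}
  have h' : ∀ j : J, ∃ (U : Scheme.{u}) (i : U ⟶ X) (_ : IsOpenImmersion i) (g : U ⟶ Y)
        (q : Spec (.of k) ⟶ U), q ≫ i = j.1 ∧ g ≫ t = i ≫ s ∧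
        ∀ (r : Spec (.of k) ⟶ U) (hr : (r ≫ i) ≫ s = 𝟙 _), r ≫ g = φ (r ≫ i) hr :=
    fun j => h j.1 j.2
  choose U i hi g q hq hgt hg using h'
  have hcov : ∀ x : X, ∃ j, ∃ y, (i j) y = x := by
    refine cover_core s U i ?_
    intro p hp
    exact ⟨⟨p, hp⟩, q ⟨p, hp⟩, hq ⟨p, hp⟩⟩
  let 𝒰 : X.OpenCover := Scheme.Cover.mkOfCovers J U i hcov hi
  have hglue : ∀ x y : J, pullback.fst (i x) (i y) ≫ g x
      = pullback.snd (i x) (i y) ≫ g y := by
    intro x y
    have h3 : LocallyOfFiniteType ((pullback.fst (i x) (i y) ≫ i x) ≫ s) := by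
      infer_instance
    have h4 : IsReduced (pullback (i x) (i y)) :=
      isReduced_of_isOpenImmersion (pullback.fst (i x) (i y) ≫ i x)
    refine extk_core ((pullback.fst (i x) (i y) ≫ i x) ≫ s) t _ _ ?_ ?_ ?_
    · rw [Category.assoc, Category.assoc, hgt x]
    · rw [pullback.condition, Category.assoc, Category.assoc, hgt y]
    · intro p hp
      have e1 := hg x (p ≫ pullback.fst (i x) (i y)) (by
        simpa only [Category.assoc] using hp)
      have e2 := hg y (p ≫ pullback.snd (i x) (i y)) (by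
        rw [pullback.condition] at hp
        simpa only [Category.assoc] using hp)
      have e3 : (p ≫ pullback.fst (i x) (i y)) ≫ i x
          = (p ≫ pullback.snd (i x) (i y)) ≫ i y := by
        rw [Category.assoc, Category.assoc, pullback.condition]
      rw [← Category.assoc, ← Category.assoc]
      refine e1.trans (Eq.trans ?_ e2.symm)
      congr 1
  let F : X ⟶ Y := 𝒰.glueMorphisms g hglue
  have hF : ∀ x : J, i x ≫ F = g x := fun x => 𝒰.ι_glueMorphisms g hglue x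
  refine ⟨F, ?_, ?_⟩
  · refine 𝒰.hom_ext _ _ ?_
    intro x
    change i x ≫ F ≫ t = i x ≫ s
    rw [← Category.assoc, hF x]
    exact hgt x
  · intro p hp
    have e1 := hg ⟨p, hp⟩ (q ⟨p, hp⟩) (by rw [hq ⟨p, hp⟩]; exact hp)
    have e2 : q ⟨p, hp⟩ ≫ i ⟨p, hp⟩ ≫ F = φ (q ⟨p, hp⟩ ≫ i ⟨p, hp⟩)
        (by rw [hq ⟨p, hp⟩]; exact hp) := by
      rw [← e1, hF ⟨p, hp⟩]
    rw [← Category.assoc] at e2
    have e3 := hq ⟨p, hp⟩
    revert e2
    generalize_proofs h0
    revert h0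
    rw [e3]
    intro h0 e2
    exact e2

end Pool.Agent.Ell.H94
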