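import Pool.Agent.Lib.MP_c7af3c_ag.ELL.Iface
import Pool.Agent.Lib.MP_c7af3c_ag.ELL.H94.Core

/-!
# MP_c7af3c_ag, project ELL, modules EXTK and MOR
-/

set_option autoImplicit false

open CategoryTheory CategoryTheory.Limits AlgebraicGeometry

namespace Pool.Agent.Ell.H94

theorem extk : ExtkStatement := by
  intro k _ _ X Y _ _ _ _ f g H
  apply Over.OverMorphism.ext
  refine extk_core X.hom Y.hom f.left g.left (Over.w f) (Over.w g) ?_
  intro p hp
  have h1 := H (Over.homMk p (by simpa using hp))
  have h2 := congrArg (fun q => CommaMorphism.left q) h1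
  simpa using h2

theorem mor : MorStatement := by
  intro k _ _ X Y _ _ _ _ I U u hu f hcov φ hφ
  have hcov' : ∀ x : X.left, ∃ j, ∃ y, (u j).left y = x := by
    have : ∀ j, IsOpenImmersion (u j).left := hu
    refine cover_core X.hom (fun i => (U i).left) (fun i => (u i).left) ?_
    intro p hp
    obtain ⟨i, q, hq⟩ := hcov (Over.homMk p (by simpa using hp))
    refine ⟨i, q.left, ?_⟩
    have h2 := congrArg (fun q => CommaMorphism.left q) hq
    simpa using h2
  let 𝒰 : X.left.OpenCover := Scheme.Cover.mkOfCovers I (fun i => (U i).left)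
    (fun i => (u i).left) hcov' hu
  have hglue : ∀ x y : I, pullback.fst (u x).left (u y).left ≫ (f x).left
      = pullback.snd (u x).left (u y).left ≫ (f y).left := by
    intro x y
    have hx := hu x
    have hy := hu y
    have h3 : LocallyOfFiniteType ((pullback.fst (u x).left (u y).left ≫ (u x).left) ≫ X.hom) := by
      infer_instance
    have h4 : IsReduced (pullback (u x).left (u y).left) :=
      isReduced_of_isOpenImmersion (pullback.fst (u x).left (u y).left ≫ (u x).left)
    refine extk_core ((pullback.fst (u x).left (u y).left ≫ (u x).left) ≫ X.hom) Y.hom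
      _ _ ?_ ?_ ?_
    · rw [Category.assoc, Category.assoc, Over.w, Over.w]
    · rw [pullback.condition, Category.assoc, Category.assoc, Over.w, Over.w]
    · intro p hp
      have hp1 : (p ≫ pullback.fst (u x).left (u y).left) ≫ (U x).hom = 𝟙 _ := by
        rw [← hp, Category.assoc, Category.assoc, Over.w]
      have hp2 : (p ≫ pullback.snd (u x).left (u y).left) ≫ (U y).hom = 𝟙 _ := by
        rw [← hp, pullback.condition, Category.assoc, Category.assoc, Over.w]
      let q1 : PT k ⟶ U x := Over.homMk (p ≫ pullback.fst (u x).left (u y).left)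
        (by simpa using hp1)
      let q2 : PT k ⟶ U y := Over.homMk (p ≫ pullback.snd (u x).left (u y).left)
        (by simpa using hp2)
      have e3 : q1 ≫ u x = q2 ≫ u y := by
        apply Over.OverMorphism.ext
        simp only [q1, q2, Over.comp_left, Over.homMk_left]
        rw [Category.assoc, Category.assoc, pullback.condition]
      have e4 : q1 ≫ f x = q2 ≫ f y := by
        rw [hφ x q1, hφ y q2, e3]
      have e5 := congrArg (fun q => CommaMorphism.left q) e4
      simp only [q1, q2, Over.comp_left, Over.homMk_left] at e5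
      rw [← Category.assoc, ← Category.assoc]
      exact e5
  let F : X.left ⟶ Y.left := 𝒰.glueMorphisms (fun i => (f i).left) hglue
  have hF : ∀ x : I, (u x).left ≫ F = (f x).left :=
    fun x => 𝒰.ι_glueMorphisms (fun i => (f i).left) hglue x
  have hF' : F ≫ Y.hom = X.hom := by
    refine 𝒰.hom_ext _ _ ?_
    intro x
    change (u x).left ≫ F ≫ Y.hom = (u x).left ≫ X.hom
    rw [← Category.assoc, hF x, Over.w, Over.w]
  refine ⟨Over.homMk F hF', ?_⟩
  intro p
  obtain ⟨i, q, hq⟩ := hcov p
  rw [← hq, ← hφ i q, Category.assoc]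
  congr 1
  apply Over.OverMorphism.ext
  rw [Over.comp_left]
  exact hF i

end Pool.Agent.Ell.H94
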